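import Pool.Agent.Helper56.LD.Goals

/-!
# Packet LD-CO10: the extension lemma
-/

set_option autoImplicit false

namespace Pool.Agent.Helper43.LD

open Pool.Agent.Helper56.LD

/-- the number of type changes above level `j`. -/
def cc (i0 d j : ℕ) : ℕ := ((Finset.range d).filter (fun t => j < 4 ^ (i0 + t))).card

theorem cc_top (i0 d j : ℕ) (h : j < 4 ^ i0) : cc i0 d j = d := by
  unfold cc
  rw [Finset.filter_true_of_mem, Finset.card_range]
  intro t _
  exact lt_of_lt_of_le h (Nat.pow_le_pow_right (by norm_num) (by omega))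

theorem cc_zero (i0 d j : ℕ) (hd : d ≤ 3) (h : 4 ^ (i0 + 2) ≤ j) : cc i0 d j = 0 := by
  unfold cc
  rw [Finset.card_eq_zero, Finset.filter_eq_empty_iff]
  intro t ht
  rw [Finset.mem_range] at ht
  have : 4 ^ (i0 + t) ≤ 4 ^ (i0 + 2) := Nat.pow_le_pow_right (by norm_num) (by omega)
  omega

theorem cc_step (i0 d j : ℕ) :
    cc i0 d j = cc i0 d (j + 1) ∨ (cc i0 d j = cc i0 d (j + 1) + 1 ∧ ∃ i, j + 1 = 4 ^ i) := by
  by_cases h : ∃ t ∈ Finset.range d, j + 1 = 4 ^ (i0 + t)
  · right
    obtain ⟨t, ht, hj⟩ := h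
    refine ⟨?_, ⟨i0 + t, hj⟩⟩
    unfold cc
    have h1 : (Finset.range d).filter (fun t => j < 4 ^ (i0 + t)) =
        insert t ((Finset.range d).filter (fun t => j + 1 < 4 ^ (i0 + t))) := by
      ext s
      rw [Finset.mem_insert, Finset.mem_filter, Finset.mem_filter]
      constructor
      · rintro ⟨hs, hjs⟩
        by_cases hst : s = t
        · exact Or.inl hst
        · right
          refine ⟨hs, ?_⟩
          have h2 : j + 1 ≠ 4 ^ (i0 + s) := by
            intro h3
            rw [hj] at h3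
            have h4 := Nat.pow_right_injective (le_refl 2 |>.trans (by norm_num : 2 ≤ 4)) h3
            omega
          omega
      · rintro (rfl | ⟨hs, hjs⟩)
        · exact ⟨ht, by omega⟩
        · exact ⟨hs, by omega⟩
    rw [h1, Finset.card_insert_of_notMem]
    rw [Finset.mem_filter]
    rintro ⟨-, h2⟩
    omega
  · left
    push Not at h
    unfold cc
    congr 1
    ext s
    rw [Finset.mem_filter, Finset.mem_filter]
    constructor
    · rintro ⟨hs, hjs⟩
      exact ⟨hs, by have := h s hs; omega⟩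
    · rintro ⟨hs, hjs⟩
      exact ⟨hs, by omega⟩

theorem fin_aux : ∀ ρ σ : Fin 4, ρ + Fin.ofNat 4 (σ - ρ : Fin 4).val = σ := by decide

/-- Packet LD-CO10. -/
theorem ext (hMu : StmtMu) : StmtExt := by
  classical
  intro k
  refine ⟨4 ^ (k + 1 + 6), ?_⟩
  intro N hN a ha haN e he
  set i0 := k + 1 with hi0
  have hk4 : k < 4 ^ i0 := by
    have : k + 1 < 4 ^ i0 := Nat.lt_pow_self (by norm_num)
    omega
  -- the scale
  obtain ⟨i, hi1, hi2⟩ : ∃ i, 4 ^ (i + 1) < N ∧ N ≤ 4 ^ (i + 2) := by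
    have hN4 : 4 ^ 1 < N := lt_of_lt_of_le (Nat.pow_lt_pow_right (by norm_num) (by omega)) hN
    have hex : ∃ i, N ≤ 4 ^ (i + 2) := ⟨N, by
      have : N < 4 ^ N := Nat.lt_pow_self (by norm_num)
      have h2 : 4 ^ N ≤ 4 ^ (N + 2) := Nat.pow_le_pow_right (by norm_num) (by omega)
      omega⟩
    refine ⟨Nat.find hex, ?_, Nat.find_spec hex⟩
    rcases Nat.eq_zero_or_pos (Nat.find hex) with h0 | h0
    · rw [h0]
      exact hN4
    · have := Nat.find_min hex (m := Nat.find hex - 1) (by omega)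
      rw [not_le] at this
      have h3 : Nat.find hex - 1 + 2 = Nat.find hex + 1 := by omega
      rwa [h3] at this
  have hii : i0 + 4 ≤ i := by
    by_contra hcon
    have h1 : 4 ^ (i + 2) < 4 ^ (i0 + 6) := Nat.pow_lt_pow_right (by norm_num) (by omega)
    omega
  obtain ⟨hm1, hm2, -, -⟩ := hMu a ha N haN
  set m := mu N a with hm
  set β := 4 ^ i / 4 with hβ
  have hβ' : β = 4 ^ (i - 1) := by
    rw [hβ]
    have : 4 ^ i = 4 ^ (i - 1) * 4 := by
      rw [← pow_succ]
      congr 1
      omega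
    rw [this, Nat.mul_div_cancel _ (by norm_num)]
  have hβ3 : 4 ^ (i0 + 3) ≤ β := by
    rw [hβ']
    exact Nat.pow_le_pow_right (by norm_num) (by omega)
  have hpow : 4 ^ (i0 + 3) = 4 * 4 ^ (i0 + 2) := by
    rw [pow_succ (n := i0 + 2)]
    ring
  have hpos : 0 < 4 ^ (i0 + 2) := by positivity
  have hkβ : k < β := by
    have : 4 ^ i0 ≤ 4 ^ (i0 + 3) := Nat.pow_le_pow_right (by norm_num) (by omega)
    omega
  have hβi : β ≤ 4 ^ i := Nat.div_le_self _ _
  obtain ⟨ρ, hρ⟩ := hm2 β
  -- the shift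
  obtain ⟨d, hd3, hd⟩ : ∃ d : ℕ, d ≤ 3 ∧ (1 ≤ k → ∀ σ, e (k - 1) = Sum.inl σ →
      ρ + (Fin.ofNat 4 d) = σ) := by
    by_cases h : 1 ≤ k ∧ ∃ σ, e (k - 1) = Sum.inl σ
    · obtain ⟨hk1, σ, hσ⟩ := h
      refine ⟨(σ - ρ : Fin 4).val, by have := (σ - ρ : Fin 4).isLt; omega, ?_⟩
      intro _ σ' hσ'
      have : σ' = σ := by
        rw [hσ] at hσ'
        exact (Sum.inl.inj hσ').symm
      rw [this]
      exact fin_aux ρ σ
    · push Not at h
      exact ⟨0, by omega, fun hk1 σ hσ => absurd hσ (h hk1 σ)⟩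
  set e' : ℕ → Lab := fun j => if j < k then e j else if β ≤ j then m j else
    Sum.inl (ρ + Fin.ofNat 4 (cc i0 d j)) with he'
  have e1 : ∀ j, j < k → e' j = e j := by
    intro j hj
    show (if j < k then e j else _) = _
    rw [if_pos hj]
  have e2 : ∀ j, β ≤ j → e' j = m j := by
    intro j hj
    show (if j < k then e j else if β ≤ j then m j else _) = _
    rw [if_neg (by omega), if_pos hj]
  have e3 : ∀ j, k ≤ j → j < β → e' j = Sum.inl (ρ + Fin.ofNat 4 (cc i0 d j)) := by
    intro j hj hj2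
    show (if j < k then e j else if β ≤ j then m j else _) = _
    rw [if_neg (by omega), if_neg (by omega)]
  have hmain : ∀ j, k ≤ j → IsMain (e' j) := by
    intro j hj
    rcases Nat.lt_or_ge j β with h | h
    · exact ⟨_, e3 j hj h⟩
    · rw [e2 j h]
      exact hm2 j
  have hES : e' ∈ ES := by
    intro j
    rcases Nat.lt_or_ge j k with hjk | hjk
    · rcases Nat.lt_or_ge (j + 1) k with hj1 | hj1
      · rw [e1 j hjk, e1 (j + 1) hj1]
        exact he j
      · have hjk' : j + 1 = k := by omega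
        rw [e1 j hjk, hjk', e3 k le_rfl hkβ, cc_top i0 d k hk4]
        have hj' : j = k - 1 := by omega
        rw [hj']
        cases hek : e (k - 1) with
        | inl σ =>
          left
          exact (hd (by omega) σ hek).symm
        | inr q => exact trivial
    · rcases Nat.lt_or_ge j β with hjβ | hjβ
      · rcases Nat.lt_or_ge (j + 1) β with hj1 | hj1
        · rw [e3 j hjk hjβ, e3 (j + 1) (by omega) hj1]
          rcases cc_step i0 d j with h | ⟨h, i', hi'⟩
          · left
            rw [h]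
          · right
            refine ⟨?_, i', hi'⟩
            rw [h, add_assoc]
            congr 1
            apply Fin.ext
            simp [Fin.ofNat, Fin.add_def]
        · have hjβ' : j + 1 = β := by omega
          rw [e3 j hjk hjβ, hjβ', e2 β le_rfl, hρ, cc_zero i0 d j hd3 (by omega)]
          left
          simp
      · rw [e2 j hjβ, e2 (j + 1) (by omega)]
        exact hm1 j
  refine ⟨e', hES, ?_, e1, hmain⟩
  have hQ : QQ i N a e' := by
    intro l hl _
    exact e2 l hl
  refine ⟨?_, ?_⟩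
  · intro h4
    exfalso
    have : 4 ^ 1 ≤ 4 ^ (i + 1) := Nat.pow_le_pow_right (by norm_num) (by omega)
    omega
  · intro i' hi1' hi2'
    have hii' : i' = i := by
      have h1 : 4 ^ (i' + 1) < 4 ^ (i + 2) := by omega
      have h2 : 4 ^ (i + 1) < 4 ^ (i' + 2) := by omega
      have h3 := (Nat.pow_lt_pow_iff_right (a := 4) (by norm_num)).1 h1
      have h4 := (Nat.pow_lt_pow_iff_right (a := 4) (by norm_num)).1 h2
      omega
    subst hii'
    refine ⟨fun l hl => e2 l (by omega), ?_⟩
    rcases Nat.lt_or_ge (4 ^ i') (4 ^ (i' + 2) - N) with h | h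
    · right
      refine ⟨h, hQ, ?_⟩
      have : β ≤ max (4 ^ i' / 4) (2 * 4 ^ i' + 1 - (4 ^ (i' + 2) - N)) := le_max_left _ _
      rw [e2 _ this]
      exact hm2 _
    · left
      exact ⟨h, Or.inl hQ⟩

end Pool.Agent.Helper43.LD
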